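import Pool.Agent.H964.CW.Stm

/-!
# Moments of the tilted environment, exponential moments only near the origin (task CW-LAW2)

Adapted from the file of helper277 for the task QC-LAW.
-/

set_option autoImplicit false

open MeasureTheory

namespace Pool.Agent.H52.CW

open Pool.Agent.H964.QC Pool.Agent.H964.CW

section law

variable {μ : Measure ℝ} [IsProbabilityMeasure μ] {B : ℝ}
  (hI : ∀ b : ℝ, |b| ≤ B → Integrable (fun x : ℝ => Real.exp (b * x)) μ)

include hI

theorem exp_lam {b : ℝ} (hb : |b| ≤ B) : Real.exp (Lam μ b) = ∫ x, Real.exp (b * x) ∂μ := by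
  unfold Lam
  exact Real.exp_log (integral_exp_pos (hI b hb))

omit [IsProbabilityMeasure μ] in
theorem int_pow [IsProbabilityMeasure μ] {b : ℝ} (k : ℕ) (hb : |k * b| ≤ B) :
    Integrable (fun x : ℝ => Real.exp (b * x - Lam μ b) ^ k) μ := by
  have h : (fun x : ℝ => Real.exp (b * x - Lam μ b) ^ k) =
      fun x => Real.exp (-(k * Lam μ b)) * Real.exp ((k * b) * x) := by
    funext x
    rw [← Real.exp_nat_mul, ← Real.exp_add]
    congr 1
    ring
  rw [h]
  exact (hI (k * b) hb).const_mul _

theorem mean_one {b : ℝ} (hb : |b| ≤ B) : ∫ x, Real.exp (b * x - Lam μ b) ∂μ = 1 := by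
  have h : (fun x : ℝ => Real.exp (b * x - Lam μ b)) =
      fun x => Real.exp (-(Lam μ b)) * Real.exp (b * x) := by
    funext x
    rw [← Real.exp_add]
    congr 1
    ring
  rw [h, integral_const_mul, ← exp_lam hI hb, ← Real.exp_add]
  simp

theorem sq_mean {b : ℝ} (hb : |2 * b| ≤ B) :
    ∫ x, Real.exp (b * x - Lam μ b) ^ 2 ∂μ = 1 + sig2 μ b := by
  have h : (fun x : ℝ => Real.exp (b * x - Lam μ b) ^ 2) =
      fun x => Real.exp (-(2 * Lam μ b)) * Real.exp ((2 * b) * x) := by
    funext x
    rw [← Real.exp_nat_mul, ← Real.exp_add]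
    congr 1
    push_cast
    ring
  rw [h, integral_const_mul, ← exp_lam hI hb, ← Real.exp_add]
  unfold sig2
  rw [add_sub_cancel]
  congr 1
  ring

end law

/-- the elementary inequality for the covariance -/
theorem cov_pt {b : ℝ} (h0 : 0 ≤ b) (h1 : b ≤ 1) (x : ℝ) :
    b * (x ^ 2 / (1 + |x|)) ≤ x * (Real.exp (b * x) - 1) := by
  have hden : 0 < 1 + |x| := by positivity
  rcases le_or_gt 0 x with hx | hx
  · have e1 : b * x ≤ Real.exp (b * x) - 1 := by
      have := Real.add_one_le_exp (b * x)
      linarith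
    have e2 : x * (b * x) ≤ x * (Real.exp (b * x) - 1) := mul_le_mul_of_nonneg_left e1 hx
    have e3 : x ^ 2 / (1 + |x|) ≤ x ^ 2 := by
      refine div_le_self (sq_nonneg x) ?_
      have := abs_nonneg x
      linarith
    have e4 := mul_le_mul_of_nonneg_left e3 h0
    nlinarith
  · set y : ℝ := -x with hy
    have hy0 : 0 < y := by linarith
    have hxy : x = -y := by linarith
    have habs : |x| = y := abs_of_neg hx
    rw [habs, hxy]
    have e1 : Real.exp (b * -y) ≤ 1 / (1 + b * y) := by
      have h2 : 0 < 1 + b * y := by positivity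
      rw [le_div_iff₀ h2]
      have h3 := Real.add_one_le_exp (b * y)
      have h4 : Real.exp (b * -y) * Real.exp (b * y) = 1 := by
        rw [← Real.exp_add]
        simp
      have h5 := Real.exp_pos (b * -y)
      nlinarith
    have e2 : b * y / (1 + y) ≤ 1 - Real.exp (b * -y) := by
      have h2 : b * y / (1 + y) ≤ b * y / (1 + b * y) := by
        refine div_le_div_of_nonneg_left (by positivity) (by positivity) ?_
        nlinarith
      have h3 : b * y / (1 + b * y) = 1 - 1 / (1 + b * y) := by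
        have : (1 + b * y) ≠ 0 := by positivity
        field_simp
        ring
      linarith
    have e3 := mul_le_mul_of_nonneg_left e2 hy0.le
    have e4 : b * ((-y) ^ 2 / (1 + y)) = y * (b * y / (1 + y)) := by
      field_simp
    rw [e4]
    linarith

/-- the pointwise bound of the fourth power -/
theorem four_pt {b L B : ℝ} (hB : 0 < B) (h0 : 0 ≤ b) (h1 : b ≤ 1) (hb : 16 * b ≤ B) (hL : 0 ≤ L)
    (x : ℝ) :
    (Real.exp (b * x - L) - 1) ^ 4 ≤ (Real.exp (b * x - L) - 1) ^ 2 +
      b ^ 2 * ((24 * (2 / B) ^ 4) * Real.exp (B * x)) := by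
  have hpos := Real.exp_pos (b * x - L)
  have hE := Real.exp_pos (B * x)
  set ξ : ℝ := Real.exp (b * x - L) - 1 with hξ
  rcases le_or_gt ξ 1 with h | h
  · have h2 : ξ ^ 2 ≤ 1 := by nlinarith
    have h3 : ξ ^ 4 ≤ ξ ^ 2 := by nlinarith [sq_nonneg ξ]
    have h4 : 0 ≤ b ^ 2 * ((24 * (2 / B) ^ 4) * Real.exp (B * x)) := by positivity
    linarith
  · have hy : 0 < b * x - L := by
      by_contra hc
      rw [not_lt] at hc
      have := Real.exp_le_one_iff.2 hc
      linarith
    have hbx : 0 < b * x := by linarith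
    have hx : 0 < x := by
      by_contra hc
      rw [not_lt] at hc
      have := mul_nonpos_of_nonneg_of_nonpos h0 hc
      linarith
    have e1 : ξ ≤ (b * x - L) * Real.exp (b * x - L) := by
      have h2 := Real.add_one_le_exp (-(b * x - L))
      have h3 : Real.exp (-(b * x - L)) * Real.exp (b * x - L) = 1 := by
        rw [← Real.exp_add]
        simp
      nlinarith
    have e2 : (b * x - L) * Real.exp (b * x - L) ≤ (b * x) * Real.exp (b * x) := by
      refine mul_le_mul (by linarith) (Real.exp_le_exp.2 ?_) hpos.le hbx.le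
      linarith
    have e3 : ξ ^ 4 ≤ ((b * x) * Real.exp (b * x)) ^ 4 :=
      pow_le_pow_left₀ (by linarith) (e1.trans e2) 4
    have e4 : x ^ 4 ≤ (24 * (2 / B) ^ 4) * Real.exp ((B / 2) * x) := by
      have hBx : 0 ≤ (B / 2) * x := by positivity
      have h2 := Real.pow_div_factorial_le_exp ((B / 2) * x) hBx 4
      have h3 : ((Nat.factorial 4 : ℕ) : ℝ) = 24 := by norm_num [Nat.factorial]
      rw [h3, div_le_iff₀ (by norm_num)] at h2
      have h4 : x ^ 4 = (2 / B) ^ 4 * ((B / 2) * x) ^ 4 := by
        field_simp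
      rw [h4]
      have h5 : (0 : ℝ) ≤ (2 / B) ^ 4 := by positivity
      have h6 := mul_le_mul_of_nonneg_left h2 h5
      linarith
    have e5 : b ^ 4 ≤ b ^ 2 := pow_le_pow_of_le_one h0 h1 (by norm_num)
    have e6 : ((b * x) * Real.exp (b * x)) ^ 4 = b ^ 4 * (x ^ 4 * Real.exp (4 * (b * x))) := by
      have : Real.exp (4 * (b * x)) = Real.exp (b * x) ^ 4 := by
        rw [← Real.exp_nat_mul]
        norm_num
      rw [this]
      ring
    have e7 : x ^ 4 * Real.exp (4 * (b * x)) ≤ (24 * (2 / B) ^ 4) * Real.exp (B * x) := by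
      have h2 : Real.exp (B * x) = Real.exp ((B / 2) * x) * Real.exp ((B / 2) * x) := by
        rw [← Real.exp_add]
        congr 1
        ring
      have h3 : Real.exp (4 * (b * x)) ≤ Real.exp ((B / 2) * x) := by
        refine Real.exp_le_exp.2 ?_
        nlinarith
      have h4 := mul_le_mul e4 h3 (Real.exp_pos _).le
        (by positivity : 0 ≤ (24 * (2 / B) ^ 4) * Real.exp ((B / 2) * x))
      rw [h2]
      linarith
    have e8 : 0 ≤ x ^ 4 * Real.exp (4 * (b * x)) := by positivity
    have e9 : b ^ 4 * (x ^ 4 * Real.exp (4 * (b * x))) ≤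
        b ^ 2 * ((24 * (2 / B) ^ 4) * Real.exp (B * x)) :=
      mul_le_mul e5 e7 e8 (by positivity)
    have := sq_nonneg ξ
    linarith

theorem t_LAW2 : S_LAW2 := by
  intro μ _ hI0 hm1 hm2
  obtain ⟨B, hB, hI⟩ := hI0
  -- integrability of `x²` and `x`
  have ix2 : Integrable (fun x : ℝ => x ^ 2) μ := by
    by_contra h
    rw [integral_undef h] at hm2
    exact zero_ne_one hm2
  have ix : Integrable (fun x : ℝ => x) μ := by
    refine (ix2.add (integrable_const (1 : ℝ))).mono' measurable_id.aestronglyMeasurable ?_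
    refine Filter.Eventually.of_forall fun x => ?_
    simp only [Pi.add_apply, Real.norm_eq_abs]
    have := sq_nonneg (|x| - 1)
    have h2 := sq_abs x
    have h3 := abs_nonneg x
    nlinarith
  have hBB : |B| ≤ B := by rw [abs_of_pos hB]
  have hBn : |-B| ≤ B := by rw [abs_neg, abs_of_pos hB]
  obtain ⟨M1, hM1⟩ : ∃ M1 : ℝ, M1 = ∫ x, Real.exp (B * x) ∂μ := ⟨_, rfl⟩
  obtain ⟨M2, hM2⟩ : ∃ M2 : ℝ, M2 = ∫ x, Real.exp (-B * x) ∂μ := ⟨_, rfl⟩
  obtain ⟨c1, hc1⟩ : ∃ c1 : ℝ, c1 = ∫ x, x ^ 2 / (1 + |x|) ∂μ := ⟨_, rfl⟩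
  have hM1p : 0 < M1 := by
    rw [hM1]
    exact integral_exp_pos (hI B hBB)
  have hM2p : 0 < M2 := by
    rw [hM2]
    exact integral_exp_pos (hI (-B) hBn)
  have hpt0 : ∀ x : ℝ, 0 ≤ x ^ 2 / (1 + |x|) := fun x => by positivity
  have ic1 : Integrable (fun x : ℝ => x ^ 2 / (1 + |x|)) μ := by
    refine ix2.mono' ?_ ?_
    · have : Measurable fun x : ℝ => x ^ 2 / (1 + |x|) := by fun_prop
      exact this.aestronglyMeasurable
    · refine Filter.Eventually.of_forall fun x => ?_
      rw [Real.norm_of_nonneg (hpt0 x)]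
      refine div_le_self (sq_nonneg x) ?_
      have := abs_nonneg x
      linarith
  have hc1p : 0 < c1 := by
    rw [hc1]
    refine lt_of_le_of_ne (integral_nonneg hpt0) fun h => ?_
    have h2 := (integral_eq_zero_iff_of_nonneg hpt0 ic1).1 h.symm
    have h3 : (fun x : ℝ => x ^ 2) =ᵐ[μ] 0 := by
      filter_upwards [h2] with x hx
      have h4 : x ^ 2 / (1 + |x|) = 0 := hx
      have h5 : (1 + |x|) ≠ 0 := by positivity
      rw [div_eq_zero_iff] at h4
      rcases h4 with h4 | h4
      · exact h4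
      · exact absurd h4 h5
    rw [integral_congr_ae h3] at hm2
    simp at hm2
  -- `Lam ≥ 0`
  have hLam : ∀ b : ℝ, |b| ≤ B → 0 ≤ Lam μ b := by
    intro b hb
    rw [← Real.exp_le_exp, Real.exp_zero, exp_lam hI hb]
    have h1 : ∫ x, (1 + b * x) ∂μ ≤ ∫ x, Real.exp (b * x) ∂μ := by
      refine integral_mono ((integrable_const (1 : ℝ)).add (ix.const_mul b)) (hI b hb) ?_
      intro x
      have := Real.add_one_le_exp (b * x)
      show 1 + b * x ≤ Real.exp (b * x)
      linarith
    rw [integral_add (integrable_const (1 : ℝ)) (ix.const_mul b), integral_const_mul, hm1] at h1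
    simpa using h1
  -- upper bound for the exponential moments
  have hup : ∀ s b : ℝ, |s| = B → 0 ≤ b → b ≤ B →
      ∫ x, Real.exp ((b / B * s) * x) ∂μ ≤ 1 + (b / B) * ∫ x, Real.exp (s * x) ∂μ := by
    intro s b hs hb hbB
    have hθ0 : 0 ≤ b / B := by positivity
    have hθ1 : b / B ≤ 1 := by rw [div_le_one hB]; exact hbB
    have hs' : |s| ≤ B := hs.le
    have hbs : |b / B * s| ≤ B := by
      rw [abs_mul, abs_of_nonneg hθ0, hs]
      nlinarith
    have hint : ∫ x, Real.exp ((b / B * s) * x) ∂μ ≤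
        ∫ x, (1 + (b / B) * Real.exp (s * x)) ∂μ := by
      refine integral_mono (hI _ hbs)
        ((integrable_const (1 : ℝ)).add ((hI s hs').const_mul (b / B))) fun x => ?_
      have hc := (convexOn_exp.2 (Set.mem_univ (0 : ℝ)) (Set.mem_univ (s * x))
        (by linarith : (0 : ℝ) ≤ 1 - b / B) hθ0 (by ring))
      simp only [smul_eq_mul, mul_zero, zero_add, Real.exp_zero, mul_one] at hc
      have e : (b / B * s) * x = b / B * (s * x) := by ring
      show Real.exp ((b / B * s) * x) ≤ 1 + (b / B) * Real.exp (s * x)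
      rw [e]
      linarith
    rw [integral_add (integrable_const (1 : ℝ)) ((hI s hs').const_mul (b / B)),
      integral_const_mul] at hint
    simpa using hint
  have hupP : ∀ b : ℝ, 0 ≤ b → b ≤ B → ∫ x, Real.exp (b * x) ∂μ ≤ 1 + (b / B) * M1 := by
    intro b hb hbB
    have h := hup B b (abs_of_pos hB) hb hbB
    rw [div_mul_cancel₀ _ hB.ne', ← hM1] at h
    exact h
  have hupN : ∀ b : ℝ, 0 ≤ b → b ≤ B → ∫ x, Real.exp (-b * x) ∂μ ≤ 1 + (b / B) * M2 := by
    intro b hb hbB
    have h := hup (-B) b (by rw [abs_neg, abs_of_pos hB]) hb hbB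
    rw [mul_neg, div_mul_cancel₀ _ hB.ne', ← hM2] at h
    exact h
  -- lower bound of the variance
  have hlow : ∀ b : ℝ, 0 ≤ b → b ≤ 1 → 2 * b ≤ B → b ^ 2 * (c1 / (1 + M1)) ^ 2 ≤ sig2 μ b := by
    intro b hb hb1 hb2
    have hbB : |b| ≤ B := by rw [abs_of_nonneg hb]; linarith
    have hbB2 : |2 * b| ≤ B := by rw [abs_of_nonneg (by linarith)]; exact hb2
    obtain ⟨t, ht⟩ : ∃ t : ℝ → ℝ, t = fun x => Real.exp (b * x - Lam μ b) := ⟨_, rfl⟩
    have it : Integrable t μ := by
      have := int_pow hI (b := b) 1 (by simpa using hbB)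
      rw [ht]
      simpa using this
    have it2 : Integrable (fun x => t x ^ 2) μ := by
      rw [ht]
      exact int_pow hI (b := b) 2 (by exact_mod_cast hbB2)
    have mt : ∫ x, t x ∂μ = 1 := by
      rw [ht]
      exact mean_one hI hbB
    have mt2 : ∫ x, t x ^ 2 ∂μ = 1 + sig2 μ b := by
      rw [ht]
      exact sq_mean hI hbB2
    have mest : Measurable t := by
      rw [ht]
      fun_prop
    have ixt : Integrable (fun x => x * t x) μ := by
      refine (ix2.add it2).mono' ((measurable_id.mul mest).aestronglyMeasurable) ?_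
      refine Filter.Eventually.of_forall fun x => ?_
      simp only [Pi.add_apply, Real.norm_eq_abs]
      rw [abs_mul]
      have h1 := sq_nonneg (|x| - |t x|)
      have h2 := sq_abs x
      have h3 := sq_abs (t x)
      have h4 := abs_nonneg x
      have h5 := abs_nonneg (t x)
      nlinarith
    obtain ⟨m, hm⟩ : ∃ m : ℝ, m = ∫ x, x * t x ∂μ := ⟨_, rfl⟩
    have hsq : m ^ 2 ≤ sig2 μ b := by
      have h0 : 0 ≤ ∫ x, (t x - 1 - m * x) ^ 2 ∂μ := integral_nonneg fun x => sq_nonneg _
      have e : (fun x : ℝ => (t x - 1 - m * x) ^ 2) = fun x => t x ^ 2 - 2 * t x + 1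
          - 2 * m * (x * t x) + 2 * m * x + m ^ 2 * x ^ 2 := by
        funext x
        ring
      have k1 : Integrable (fun x => t x ^ 2 - 2 * t x) μ := it2.sub (it.const_mul 2)
      have k2 : Integrable (fun x => t x ^ 2 - 2 * t x + 1) μ := k1.add (integrable_const 1)
      have k3 : Integrable (fun x => t x ^ 2 - 2 * t x + 1 - 2 * m * (x * t x)) μ :=
        k2.sub (ixt.const_mul (2 * m))
      have k4 : Integrable (fun x => t x ^ 2 - 2 * t x + 1 - 2 * m * (x * t x) + 2 * m * x) μ :=
        k3.add (ix.const_mul (2 * m))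
      rw [e, integral_add k4 (ix2.const_mul (m ^ 2)), integral_add k3 (ix.const_mul (2 * m)),
        integral_sub k2 (ixt.const_mul (2 * m)), integral_add k1 (integrable_const 1),
        integral_sub it2 (it.const_mul 2), integral_const_mul, integral_const_mul,
        integral_const_mul, integral_const_mul, mt, mt2, hm1, hm2, ← hm] at h0
      simp only [integral_const, probReal_univ, smul_eq_mul, mul_one, mul_zero] at h0
      nlinarith
    have hmlow : b * (c1 / (1 + M1)) ≤ m := by
      have ixe : Integrable (fun x => x * (Real.exp (b * x) - 1)) μ := by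
        have e3 : (fun x : ℝ => x * (Real.exp (b * x) - 1)) = fun x =>
            Real.exp (Lam μ b) * (x * t x) - x := by
          funext x
          rw [ht]
          have : Real.exp (b * x) = Real.exp (Lam μ b) * Real.exp (b * x - Lam μ b) := by
            rw [← Real.exp_add]
            congr 1
            ring
          show x * (Real.exp (b * x) - 1) = Real.exp (Lam μ b) *
            (x * Real.exp (b * x - Lam μ b)) - x
          rw [this]
          ring
        rw [e3]
        exact (ixt.const_mul _).sub ix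
      have e1 : m = Real.exp (-(Lam μ b)) * ∫ x, x * (Real.exp (b * x) - 1) ∂μ := by
        have e2 : (fun x : ℝ => x * t x) = fun x =>
            Real.exp (-(Lam μ b)) * (x * (Real.exp (b * x) - 1)) +
              Real.exp (-(Lam μ b)) * x := by
          funext x
          rw [ht]
          have : Real.exp (b * x - Lam μ b) = Real.exp (-(Lam μ b)) * Real.exp (b * x) := by
            rw [← Real.exp_add]
            congr 1
            ring
          show x * Real.exp (b * x - Lam μ b) = _
          rw [this]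
          ring
        rw [hm, e2, integral_add (ixe.const_mul _) (ix.const_mul _), integral_const_mul,
          integral_const_mul, hm1, mul_zero, add_zero]
      have h2 : b * c1 ≤ ∫ x, x * (Real.exp (b * x) - 1) ∂μ := by
        rw [hc1, ← integral_const_mul]
        exact integral_mono (ic1.const_mul b) ixe (cov_pt hb hb1)
      have h5 : (1 + M1)⁻¹ ≤ Real.exp (-(Lam μ b)) := by
        rw [Real.exp_neg]
        refine inv_anti₀ (Real.exp_pos _) ?_
        rw [exp_lam hI hbB]
        refine (hupP b hb (by linarith)).trans ?_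
        have h6 : b / B ≤ 1 := by rw [div_le_one hB]; linarith
        nlinarith
      rw [e1]
      have h6 : 0 ≤ b * c1 := by positivity
      calc b * (c1 / (1 + M1)) = (1 + M1)⁻¹ * (b * c1) := by
            rw [div_eq_mul_inv]
            ring
        _ ≤ Real.exp (-(Lam μ b)) * (b * c1) := mul_le_mul_of_nonneg_right h5 h6
        _ ≤ _ := mul_le_mul_of_nonneg_left h2 (Real.exp_pos _).le
    have h7 : 0 ≤ b * (c1 / (1 + M1)) := by positivity
    have h8 := pow_le_pow_left₀ h7 hmlow 2
    calc b ^ 2 * (c1 / (1 + M1)) ^ 2 = (b * (c1 / (1 + M1))) ^ 2 := by ring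
      _ ≤ m ^ 2 := h8
      _ ≤ _ := hsq
  obtain ⟨q, hq⟩ : ∃ q : ℝ, q = (c1 / (1 + M1)) ^ 2 := ⟨_, rfl⟩
  have hq0 : 0 < q := by
    rw [hq]
    positivity
  rw [← hq] at hlow
  obtain ⟨D, hD⟩ : ∃ D : ℝ, D = 24 * (2 / B) ^ 4 * M1 := ⟨_, rfl⟩
  have hDp : 0 < D := by
    rw [hD]
    positivity
  obtain ⟨b0, hb0⟩ : ∃ b0 : ℝ, b0 = min (min 1 (B / 16)) (2 / 5 * B / (M1 + M2)) := ⟨_, rfl⟩
  have hb0p : 0 < b0 := by
    rw [hb0]
    positivity
  have hb01 : b0 ≤ 1 := by
    rw [hb0]
    exact (min_le_left _ _).trans (min_le_left _ _)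
  have hb02 : b0 ≤ B / 16 := by
    rw [hb0]
    exact (min_le_left _ _).trans (min_le_right _ _)
  have hb03 : b0 ≤ 2 / 5 * B / (M1 + M2) := by
    rw [hb0]
    exact min_le_right _ _
  refine ⟨1 + D / q, b0, ?_, hb0p, ?_⟩
  · have : 0 ≤ D / q := by positivity
    linarith
  · intro b hb hbb
    have hb1 : b ≤ 1 := hbb.trans hb01
    have hb16 : 16 * b ≤ B := by linarith
    have habs : ∀ k : ℕ, k ≤ 4 → |(k : ℝ) * b| ≤ B := by
      intro k hk
      have hk' : (k : ℝ) ≤ 4 := by exact_mod_cast hk
      rw [abs_of_nonneg (by positivity)]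
      nlinarith
    have hbB : |b| ≤ B := by
      rw [abs_of_nonneg hb]
      linarith
    have hbB2 : |2 * b| ≤ B := by
      rw [abs_of_nonneg (by linarith)]
      linarith
    have hbN : |-b| ≤ B := by
      rw [abs_neg, abs_of_nonneg hb]
      linarith
    have i1 := int_pow hI (b := b) 1 (habs 1 (by norm_num))
    have i2 := int_pow hI (b := b) 2 (habs 2 (by norm_num))
    have i3 := int_pow hI (b := b) 3 (habs 3 (by norm_num))
    have i4 := int_pow hI (b := b) 4 (habs 4 (by norm_num))
    obtain ⟨t, ht⟩ : ∃ t : ℝ → ℝ, t = fun x => Real.exp (b * x - Lam μ b) := ⟨_, rfl⟩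
    have it : Integrable t μ := by
      rw [ht]
      simpa using i1
    have it2 : Integrable (fun x => t x ^ 2) μ := by
      rw [ht]
      exact i2
    have it3 : Integrable (fun x => t x ^ 3) μ := by
      rw [ht]
      exact i3
    have it4 : Integrable (fun x => t x ^ 4) μ := by
      rw [ht]
      exact i4
    have mt : ∫ x, t x ∂μ = 1 := by
      rw [ht]
      exact mean_one hI hbB
    have mt2 : ∫ x, t x ^ 2 ∂μ = 1 + sig2 μ b := by
      rw [ht]
      exact sq_mean hI hbB2
    have e2 : (fun x : ℝ => (t x - 1) ^ 2) = fun x => t x ^ 2 - 2 * t x + 1 := by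
      funext x
      ring
    have e4 : (fun x : ℝ => (t x - 1) ^ 4) = fun x => t x ^ 4 - 4 * t x ^ 3 + 6 * t x ^ 2
        - 4 * t x + 1 := by
      funext x
      ring
    have e3 : (fun x : ℝ => (t x - 1) ^ 3) = fun x => t x ^ 3 - 3 * t x ^ 2 + 3 * t x - 1 := by
      funext x
      ring
    have j2 : Integrable (fun x => (t x - 1) ^ 2) μ := by
      rw [e2]
      exact (it2.sub (it.const_mul 2)).add (integrable_const 1)
    have j4 : Integrable (fun x => (t x - 1) ^ 4) μ := by
      rw [e4]
      exact (((it4.sub (it3.const_mul 4)).add (it2.const_mul 6)).sub (it.const_mul 4)).add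
        (integrable_const 1)
    have j3 : Integrable (fun x => (t x - 1) ^ 3) μ := by
      rw [e3]
      exact ((it3.sub (it2.const_mul 3)).add (it.const_mul 3)).sub (integrable_const 1)
    have m1 : ∫ x, (t x - 1) ∂μ = 0 := by
      rw [integral_sub it (integrable_const 1), mt]
      simp
    have m2 : ∫ x, (t x - 1) ^ 2 ∂μ = sig2 μ b := by
      have k1 : Integrable (fun x => t x ^ 2 - 2 * t x) μ := it2.sub (it.const_mul 2)
      rw [e2, integral_add k1 (integrable_const 1), integral_sub it2 (it.const_mul 2),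
        integral_const_mul, mt, mt2]
      simp only [integral_const, probReal_univ, smul_eq_mul, mul_one]
      ring
    have m4 : ∫ x, (t x - 1) ^ 4 ∂μ ≤ sig2 μ b + b ^ 2 * D := by
      have h1 : ∫ x, (t x - 1) ^ 4 ∂μ ≤
          ∫ x, ((t x - 1) ^ 2 + b ^ 2 * ((24 * (2 / B) ^ 4) * Real.exp (B * x))) ∂μ := by
        refine integral_mono j4 (j2.add (((hI B hBB).const_mul
          (24 * (2 / B) ^ 4)).const_mul (b ^ 2))) fun x => ?_
        rw [ht]
        exact four_pt hB hb hb1 hb16 (hLam b hbB) x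
      rw [integral_add j2 (((hI B hBB).const_mul (24 * (2 / B) ^ 4)).const_mul (b ^ 2)), m2,
        integral_const_mul, integral_const_mul, ← hM1, ← hD] at h1
      exact h1
    have hb2 : b ^ 2 ≤ sig2 μ b / q := by
      rw [le_div_iff₀ hq0]
      exact hlow b hb hb1 (by linarith)
    have hsig : 0 ≤ sig2 μ b := by
      rw [← m2]
      exact integral_nonneg fun x => sq_nonneg _
    have m4' : ∫ x, (t x - 1) ^ 4 ∂μ ≤ (1 + D / q) * sig2 μ b := by
      have h2 := mul_le_mul_of_nonneg_right hb2 hDp.le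
      have h3 : (1 + D / q) * sig2 μ b = sig2 μ b + sig2 μ b / q * D := by
        rw [div_eq_mul_inv, div_eq_mul_inv]
        ring
      rw [h3]
      linarith
    have m3 : |∫ x, (t x - 1) ^ 3 ∂μ| ≤ (1 + D / q) * sig2 μ b := by
      have h1 : |∫ x, (t x - 1) ^ 3 ∂μ| ≤ ∫ x, ((t x - 1) ^ 2 + (t x - 1) ^ 4) / 2 ∂μ := by
        refine abs_integral_le_integral_abs.trans ?_
        refine integral_mono j3.abs ((j2.add j4).div_const 2) fun x => ?_
        show |(t x - 1) ^ 3| ≤ ((t x - 1) ^ 2 + (t x - 1) ^ 4) / 2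
        rw [abs_pow]
        set a : ℝ := |t x - 1| with ha
        have h2 : (t x - 1) ^ 2 = a ^ 2 := (sq_abs _).symm
        have h4 : (t x - 1) ^ 4 = a ^ 4 := by
          calc (t x - 1) ^ 4 = ((t x - 1) ^ 2) ^ 2 := by ring
            _ = (a ^ 2) ^ 2 := by rw [h2]
            _ = a ^ 4 := by ring
        rw [h2, h4]
        nlinarith [sq_nonneg (a * (a - 1))]
      rw [integral_div, integral_add j2 j4, m2] at h1
      have h5 : 0 ≤ D / q := by positivity
      have h6 := mul_nonneg h5 hsig
      refine h1.trans ?_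
      nlinarith
    have hinv : (fun x : ℝ => (1 + (t x - 1))⁻¹) = fun x =>
        Real.exp (Lam μ b) * Real.exp (-b * x) := by
      funext x
      rw [ht]
      show (1 + (Real.exp (b * x - Lam μ b) - 1))⁻¹ = _
      rw [add_sub_cancel, ← Real.exp_neg, ← Real.exp_add]
      congr 1
      ring
    have jinv : Integrable (fun x : ℝ => (1 + (t x - 1))⁻¹) μ := by
      rw [hinv]
      exact (hI (-b) hbN).const_mul _
    have minv : ∫ x, (1 + (t x - 1))⁻¹ ∂μ ≤ 2 := by
      rw [hinv, integral_const_mul, exp_lam hI hbB]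
      have h1 := hupP b hb (by linarith)
      have h2 := hupN b hb (by linarith)
      have h3 : b / B * (M1 + M2) ≤ 2 / 5 := by
        have h4 : b ≤ 2 / 5 * B / (M1 + M2) := hbb.trans hb03
        rw [le_div_iff₀ (by positivity)] at h4
        rw [div_mul_eq_mul_div, div_le_iff₀ hB]
        exact h4
      have hθ : 0 ≤ b / B := by positivity
      have h4 : b / B * M1 ≤ 2 / 5 := by
        have : 0 ≤ b / B * M2 := by positivity
        linarith
      have h5 : b / B * M2 ≤ 2 / 5 := by
        have : 0 ≤ b / B * M1 := by positivity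
        linarith
      have p1 : 0 ≤ ∫ x, Real.exp (b * x) ∂μ := integral_nonneg fun x => (Real.exp_pos _).le
      have p2 : 0 ≤ ∫ x, Real.exp (-b * x) ∂μ := integral_nonneg fun x => (Real.exp_pos _).le
      have h6 : ∫ x, Real.exp (b * x) ∂μ ≤ 7 / 5 := by linarith
      have h7 : ∫ x, Real.exp (-b * x) ∂μ ≤ 7 / 5 := by linarith
      calc (∫ x, Real.exp (b * x) ∂μ) * ∫ x, Real.exp (-b * x) ∂μ
          ≤ 7 / 5 * (7 / 5) := mul_le_mul h6 h7 p2 (by norm_num)
        _ ≤ 2 := by norm_num
    have hspos : 0 < b → 0 < sig2 μ b := by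
      intro hbp
      have := hlow b hb hb1 (by linarith)
      have h2 : 0 < b ^ 2 * q := by positivity
      linarith
    have r : ∀ x : ℝ, Real.exp (b * x - Lam μ b) = t x := fun x => by rw [ht]
    simp only [r]
    exact ⟨j4, m1, m2, m3, m4', jinv, minv, hspos⟩

end Pool.Agent.H52.CW
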